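import Pool.Agent.helper74.VD.SpecA3

/-!
# Project VD (MP_07c750_an), block A3, row AFSD (Schur bound), from the overlaps AFOD and the volumes AVOL
-/

set_option autoImplicit false

open scoped ContDiff Topology InnerProductSpace ComplexConjugate ENNReal
open MeasureTheory Filter Set

namespace Pool.Agent.VD

open Pool.Agent.VQ (CH)

noncomputable section

theorem AFSD_two {α : Type*} [MeasurableSpace α] (μ : Measure α) (W A B : Set α) (hW : MeasurableSet W) (g : α → ENNReal) (a b : ENNReal)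
    (h : ∀ y ∈ W, g y ≠ 0 → (y ∈ A ∧ g y ≤ a) ∨ (y ∈ B ∧ g y ≤ b)) : ∫⁻ y in W, g y ∂μ ≤ a * μ A + b * μ B := by
  have h1 : ∫⁻ y in W, g y ∂μ ≤ ∫⁻ y in W, ((toMeasurable μ A).indicator (fun _ => a) y + (toMeasurable μ B).indicator (fun _ => b) y) ∂μ := by
    apply setLIntegral_mono' hW
    intro y hy
    by_cases h0 : g y = 0
    · rw [h0]; exact zero_le
    · rcases h y hy h0 with ⟨hA, hle⟩ | ⟨hB, hle⟩
      · have : y ∈ toMeasurable μ A := subset_toMeasurable μ A hA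
        rw [indicator_of_mem this]
        exact hle.trans le_self_add
      · have : y ∈ toMeasurable μ B := subset_toMeasurable μ B hB
        rw [indicator_of_mem this (fun _ => b)]
        exact hle.trans le_add_self
  refine h1.trans ((setLIntegral_le_lintegral _ _).trans ?_)
  rw [lintegral_add_left (measurable_const.indicator (measurableSet_toMeasurable μ A)), lintegral_indicator (measurableSet_toMeasurable μ A),
    lintegral_indicator (measurableSet_toMeasurable μ B), setLIntegral_const, setLIntegral_const, measure_toMeasurable, measure_toMeasurable]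

theorem AFSD_proof (hAFOD : AFOD_stmt) (hADMD : ADMD_stmt) (hAVOL : AVOL_stmt) : AFSD_stmt := by
  intro d Γ _ _ K k B r0 hK
  obtain ⟨C1, hC1, hO⟩ := hAFOD d Γ K k B r0 hK
  obtain ⟨C2, hC2, hVol⟩ := hAVOL d Γ K k B r0 C1 hK
  refine ⟨C1 + 2 * d * C1 + 1, by nlinarith [(Nat.cast_nonneg d : (0 : ℝ) ≤ d)], ?_⟩
  intro η hη hCη
  have hd0 : (0 : ℝ) ≤ d := Nat.cast_nonneg d
  have hC1η : C1 * η ≤ 1 := by
    have : 0 ≤ (2 * d * C1 + 1) * η := by positivity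
    nlinarith
  obtain ⟨Kd, R0, hR0, hO'⟩ := hO (3 * (d : ℝ) / 2) η hη hC1η
  refine ⟨Kd, max R0 ((2 * C2) ^ (1 / η)), le_max_of_le_left hR0, ?_⟩
  have key : ∀ (R m m' t t' : ℝ) (G : V d → V d →L[ℝ] V d) (Φ : ℝ → P d → P d) (f f' : YS Γ d → V d → ℂ), max R0 ((2 * C2) ^ (1 / η)) ≤ R → OKA Γ K k B G Φ → 0 ≤ m → 0 ≤ m' → |t| ≤ 1 → |t'| ≤ 1 →
      Fa G Φ r0 Kd η m R t f → Fa G Φ r0 Kd η m' R t' f' →
      ∀ y ∈ GW Γ G r0 2 R, ∫⁻ y' in GW Γ G r0 2 R, ‖∫ z, pF f y z * conj (pF f' y' z) ∂mv G‖ₑ ∂mY Γ d ≤ ENNReal.ofReal (m * m' * R ^ (-(3 * (d : ℝ) / 2) + (C1 + 2 * d * C1 + 1) * η)) := by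
    intro R m m' t t' G Φ f f' hR hok hm hm' ht ht' hf hf' y hy
    have hRR0 : R0 ≤ R := (le_max_left _ _).trans hR
    have hR1 : 1 ≤ R := hR0.trans hRR0
    have hRpos : 0 < R := by linarith
    have h2C : 2 * C2 ≤ R ^ η := by
      have h1 : (2 * C2) ^ (1 / η) ≤ R := (le_max_right _ _).trans hR
      have h2 := Real.rpow_le_rpow (by positivity) h1 hη.le
      rwa [← Real.rpow_mul (by positivity), one_div, inv_mul_cancel₀ hη.ne', Real.rpow_one] at h2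
    have hs : 0 < R ^ (-(1 / 2) + C1 * η) := Real.rpow_pos_of_pos hRpos _
    obtain ⟨hv1, hv2, _⟩ := hVol R G Φ hR1 hok y (Φ t y.2) t' (R ^ (-(1 / 2) + C1 * η)) hs
    have hW : MeasurableSet (GW Γ G r0 2 R) := ((hADMD d Γ K k B G hok.fd hok.cls).2.2.2.2.1 r0 2 R).1
    have hmm : 0 ≤ m * m' := mul_nonneg hm hm'
    have h1 := AFSD_two (mY Γ d) (GW Γ G r0 2 R) {y' | y' ∈ GW Γ G r0 2 R ∧ y.1⁻¹ * y'.1 ∈ SG Γ d C1 ∧ dist (Φ t y.2) (lft (y.1⁻¹ * y'.1) (Φ t' y'.2)) < R ^ (-(1 / 2) + C1 * η)}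
      {y' | y' ∈ GW Γ G r0 2 R ∧ y.1⁻¹ * y'.1 ∈ SG Γ d C1} hW (fun y' => ‖∫ z, pF f y z * conj (pF f' y' z) ∂mv G‖ₑ)
      (ENNReal.ofReal (m * m' * R ^ (-((d : ℝ) / 2) + C1 * η))) (ENNReal.ofReal (m * m' * R ^ (-(3 * (d : ℝ) / 2)))) (by
      intro y' hy' hne
      obtain ⟨hb1, hb2, hb3⟩ := hO' R m m' t t' G Φ f f' y y' hRR0 hok hm hm' ht ht' hy hy' (hf.pk y hy) (hf'.pk y' hy')
      have hne' : (∫ z, pF f y z * conj (pF f' y' z) ∂mv G) ≠ 0 := by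
        intro h0
        apply hne
        show ‖∫ z, pF f y z * conj (pF f' y' z) ∂mv G‖ₑ = 0
        rw [h0, enorm_zero]
      have hSG := hb2 hne'
      by_cases hdist : dist (Φ t y.2) (lft (y.1⁻¹ * y'.1) (Φ t' y'.2)) < R ^ (-(1 / 2) + C1 * η)
      · left
        refine ⟨⟨hy', hSG, hdist⟩, ?_⟩
        show ‖∫ z, pF f y z * conj (pF f' y' z) ∂mv G‖ₑ ≤ _
        rw [← ofReal_norm]
        exact ENNReal.ofReal_le_ofReal hb1
      · right
        refine ⟨⟨hy', hSG⟩, ?_⟩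
        show ‖∫ z, pF f y z * conj (pF f' y' z) ∂mv G‖ₑ ≤ _
        rw [← ofReal_norm]
        exact ENNReal.ofReal_le_ofReal (hb3 hdist))
    refine h1.trans ?_
    have hp1 : 0 ≤ m * m' * R ^ (-((d : ℝ) / 2) + C1 * η) := mul_nonneg hmm (Real.rpow_nonneg hRpos.le _)
    have hp2 : 0 ≤ m * m' * R ^ (-(3 * (d : ℝ) / 2)) := mul_nonneg hmm (Real.rpow_nonneg hRpos.le _)
    refine (add_le_add (mul_le_mul' le_rfl hv1) (mul_le_mul' le_rfl hv2)).trans ?_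
    rw [← ENNReal.ofReal_mul hp1, ← ENNReal.ofReal_mul hp2, ← ENNReal.ofReal_add (mul_nonneg hp1 (by positivity)) (mul_nonneg hp2 (by positivity))]
    apply ENNReal.ofReal_le_ofReal
    have e1 : R ^ (-((d : ℝ) / 2) + C1 * η) * (R ^ (-(1 / 2) + C1 * η)) ^ (2 * d) = R ^ (-(3 * (d : ℝ) / 2) + (C1 + 2 * d * C1) * η) := by
      rw [← Real.rpow_natCast (R ^ (-(1 / 2) + C1 * η)) (2 * d), ← Real.rpow_mul hRpos.le, ← Real.rpow_add hRpos]
      congr 1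
      push_cast
      ring
    have e2 : R ^ (-(3 * (d : ℝ) / 2)) ≤ R ^ (-(3 * (d : ℝ) / 2) + (C1 + 2 * d * C1) * η) := by
      apply Real.rpow_le_rpow_of_exponent_le hR1
      have : 0 ≤ (C1 + 2 * d * C1) * η := by positivity
      linarith
    have e3 : R ^ (-(3 * (d : ℝ) / 2) + (C1 + 2 * d * C1 + 1) * η) = R ^ (-(3 * (d : ℝ) / 2) + (C1 + 2 * d * C1) * η) * R ^ η := by
      rw [← Real.rpow_add hRpos]
      congr 1
      ring
    have hX : 0 ≤ R ^ (-(3 * (d : ℝ) / 2) + (C1 + 2 * d * C1) * η) := Real.rpow_nonneg hRpos.le _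
    calc m * m' * R ^ (-((d : ℝ) / 2) + C1 * η) * (C2 * (R ^ (-(1 / 2) + C1 * η)) ^ (2 * d)) + m * m' * R ^ (-(3 * (d : ℝ) / 2)) * C2
        = m * m' * (C2 * (R ^ (-((d : ℝ) / 2) + C1 * η) * (R ^ (-(1 / 2) + C1 * η)) ^ (2 * d)) + C2 * R ^ (-(3 * (d : ℝ) / 2))) := by ring
      _ ≤ m * m' * (C2 * R ^ (-(3 * (d : ℝ) / 2) + (C1 + 2 * d * C1) * η) + C2 * R ^ (-(3 * (d : ℝ) / 2) + (C1 + 2 * d * C1) * η)) := by
          rw [e1]
          gcongr
      _ = m * m' * (R ^ (-(3 * (d : ℝ) / 2) + (C1 + 2 * d * C1) * η) * (2 * C2)) := by ring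
      _ ≤ m * m' * (R ^ (-(3 * (d : ℝ) / 2) + (C1 + 2 * d * C1) * η) * R ^ η) := by gcongr
      _ = m * m' * R ^ (-(3 * (d : ℝ) / 2) + (C1 + 2 * d * C1 + 1) * η) := by rw [e3]
  intro R m m' t t' G Φ f f' hR hok hm hm' ht ht' hf hf'
  refine ⟨key R m m' t t' G Φ f f' hR hok hm hm' ht ht' hf hf', ?_⟩
  intro y' hy'
  have h1 := key R m' m t' t G Φ f' f hR hok hm' hm ht' ht hf' hf y' hy'
  rw [mul_comm m' m] at h1
  refine le_trans (le_of_eq ?_) h1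
  congr 1
  funext y
  rw [← ofReal_norm, ← ofReal_norm]
  congr 1
  rw [← RCLike.norm_conj (∫ z, pF f y z * conj (pF f' y' z) ∂mv G), ← integral_conj]
  congr 2
  funext z
  simp only [map_mul, Complex.conj_conj]
  ring

end

end Pool.Agent.VD
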