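import Pool.Agent.helper47.VD.SpecA1b

/-!
# Project VD (MP_07c750_an), block A1, row AQAX (analysis and synthesis are almost contractions)
-/

set_option autoImplicit false

open scoped ContDiff Topology InnerProductSpace ComplexConjugate ENNReal
open MeasureTheory Filter Set

namespace Pool.Agent.VD

open Pool.Agent.VQ (CH)

noncomputable section

/-- a weighted inequality for integrals of products -/
theorem AQAX_amgm {X : Type} [MeasurableSpace X] (μ : Measure X) (f g : X → ℂ) (c : ℝ) (hc : 0 < c)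
    (hf : Integrable (fun x => ‖f x‖ ^ 2) μ) (hg : Integrable (fun x => ‖g x‖ ^ 2) μ) :
    ‖∫ x, f x * conj (g x) ∂μ‖ ≤ ((∫ x, ‖f x‖ ^ 2 ∂μ) / c + c * ∫ x, ‖g x‖ ^ 2 ∂μ) / 2 := by
  have h1 : ‖∫ x, f x * conj (g x) ∂μ‖ ≤ ∫ x, (‖f x‖ ^ 2 / c + c * ‖g x‖ ^ 2) / 2 ∂μ := by
    apply norm_integral_le_of_norm_le (((hf.div_const c).add (hg.const_mul c)).div_const 2)
    refine Eventually.of_forall fun x => ?_
    rw [norm_mul, RCLike.norm_conj]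
    show ‖f x‖ * ‖g x‖ ≤ (‖f x‖ ^ 2 / c + c * ‖g x‖ ^ 2) / 2
    rw [le_div_iff₀ (by norm_num), div_add' _ _ _ hc.ne', le_div_iff₀ hc]
    nlinarith [sq_nonneg (‖f x‖ - c * ‖g x‖)]
  rw [integral_div, integral_add (hf.div_const c) (hg.const_mul c), integral_div, integral_const_mul] at h1
  exact h1

/-- the norm on the window as a lower integral -/
theorem AQAX_nP {Γ : Type} {d : ℕ} (G : V d → V d →L[ℝ] V d) (r0 c R : ℝ) (T : Set Γ) {v : YS Γ d → ℂ} (hv : Measurable v) :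
    nP G r0 T c R v = (∫⁻ y in DT d T ∩ GW Γ G r0 c R, ‖v y‖ₑ ^ 2 ∂mY Γ d).toReal := by
  rw [nP, integral_eq_lintegral_of_nonneg_ae (Eventually.of_forall fun p => by positivity)
    (hv.norm.pow_const 2).aestronglyMeasurable]
  congr 1
  have h1 : ∀ p, ENNReal.ofReal (‖v p‖ ^ 2) = ‖v p‖ₑ ^ 2 := fun p => by
    rw [ENNReal.ofReal_pow (norm_nonneg _), ofReal_norm]
  simp only [h1]

/-- coefficients in FP are square integrable on the window -/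
theorem AQAX_fp (hADMD : ADMD_stmt) {d : ℕ} {Γ : Type} [Group Γ] [MulAction Γ (V d)] {K : Set (V d)} {k : ℝ} {B : ℕ → ℕ → ℝ} {G : V d → V d →L[ℝ] V d}
    (hK : FdK Γ K) (hG : Cls Γ K k B G) {Λ : Subgroup Γ} {F : Set (V d)} {T : Set Γ} (hD : Dm Λ F T) (r0 R : ℝ) {v : YS Γ d → ℂ} (hv : FP Λ T v) :
    Integrable (fun y => ‖v y‖ ^ 2) ((mY Γ d).restrict (DT d T ∩ GW Γ G r0 2 R)) := by
  classical
  obtain ⟨-, -, -, hsum, hW, hDm⟩ := hADMD d Γ K k B G hK hG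
  obtain ⟨hWm, -, hWf⟩ := hW r0 2 R
  obtain ⟨-, hDTm, -, -⟩ := hDm Λ F T hD
  obtain ⟨b, hb⟩ := hv.bdd
  obtain ⟨S, hS⟩ := hv.supp
  have hset : MeasurableSet (DT d T ∩ GW Γ G r0 2 R) := hDTm.inter hWm
  refine ⟨(hv.meas.norm.pow_const 2).aestronglyMeasurable, ?_⟩
  rw [HasFiniteIntegral]
  have e1 : ∀ y, ‖‖v y‖ ^ 2‖ₑ = ‖v y‖ₑ ^ 2 := fun y => by
    rw [enorm_pow, enorm_norm]
  simp only [e1]
  rw [← lintegral_indicator hset, hsum _ ((hv.meas.enorm.pow_const 2).indicator hset)]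
  have k1 : ∀ y : YS Γ d, (DT d T ∩ GW Γ G r0 2 R).indicator (fun y => ‖v y‖ₑ ^ 2) y ≤
      {p : P d | ‖p.1‖ ≤ r0 ∧ |Ep G p| ≤ 2 * R ^ (-(1 / 4) : ℝ)}.indicator (fun _ => ENNReal.ofReal (b ^ 2)) y.2 := by
    intro y
    by_cases hp : y ∈ DT d T ∩ GW Γ G r0 2 R
    · rw [indicator_of_mem hp]
      have h2 : y.2 ∈ {p : P d | ‖p.1‖ ≤ r0 ∧ |Ep G p| ≤ 2 * R ^ (-(1 / 4) : ℝ)} := hp.2
      rw [indicator_of_mem h2, ← ofReal_norm, ← ENNReal.ofReal_pow (norm_nonneg _)]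
      apply ENNReal.ofReal_le_ofReal
      have := hb y
      have h0 := norm_nonneg (v y)
      gcongr
    · rw [indicator_of_notMem hp]
      exact zero_le
  have k2 : ∀ y : YS Γ d, y.1 ∉ S → (DT d T ∩ GW Γ G r0 2 R).indicator (fun y => ‖v y‖ₑ ^ 2) y = 0 := by
    intro y hy
    by_cases hp : y ∈ DT d T ∩ GW Γ G r0 2 R
    · rw [indicator_of_mem hp]
      have h2 : v y = 0 := by
        by_contra h3
        exact hy (hS _ hp.1 h3)
      rw [h2]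
      simp
    · rw [indicator_of_notMem hp]
  have h1 : ∀ γ : Γ, ∫⁻ p : P d, (DT d T ∩ GW Γ G r0 2 R).indicator (fun y => ‖v y‖ₑ ^ 2) ((γ, p) : YS Γ d) ≤
      if γ ∈ S then ENNReal.ofReal (b ^ 2) * volume {p : P d | ‖p.1‖ ≤ r0 ∧ |Ep G p| ≤ 2 * R ^ (-(1 / 4) : ℝ)} else 0 := by
    intro γ
    split_ifs with hγ
    · exact le_trans (lintegral_mono fun p => k1 (γ, p)) (lintegral_indicator_const_le _ _)
    · refine le_trans (lintegral_mono fun p => (k2 (γ, p) hγ).le) ?_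
      simp
  refine (ENNReal.tsum_le_tsum h1).trans_lt ?_
  rw [tsum_eq_sum (s := S) (fun γ hγ => if_neg hγ)]
  refine ENNReal.sum_lt_top.2 fun γ hγ => ?_
  rw [if_pos hγ]
  exact ENNReal.mul_lt_top ENNReal.ofReal_lt_top hWf

theorem AQAX_proof (h1 : AISD_stmt) (h2 : AQSD_stmt) (h4 : ADMD_stmt) : AQAX_stmt := by
  intro d Γ _ _ K k B r0 χ ch ζ hK hχ hch hζ hζ'
  obtain ⟨R1, hR1, H1⟩ := h1 d Γ K k B r0 χ ch ζ hK hχ hch hζ hζ'
  obtain ⟨R2, hR2, H2⟩ := h2 d Γ K k B r0 χ ch ζ hK hχ hch hζ hζ'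
  refine ⟨max R1 R2, hR1.trans (le_max_left _ _), ?_⟩
  intro R G hR hG Λ F T hD
  have hRa : R1 ≤ R := (le_max_left _ _).trans hR
  have hRb : R2 ≤ R := (le_max_right _ _).trans hR
  have hR0 : 0 < R := by linarith
  obtain ⟨-, -, -, -, -, -, hrest⟩ := H2 R G hRb hG
  obtain ⟨hQ, hS, hdual⟩ := hrest Λ F T hD
  have hV := H1 R G hRa hG Λ F T hD
  have hε : 0 < 1 + R ^ (-(1 / 4) : ℝ) := by positivity
  have hnn : ∀ φ : V d → ℂ, 0 ≤ nn G F φ := fun φ => integral_nonneg fun z => by positivity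
  have hA : ∀ φ : V d → ℂ, FH Λ F φ → nP G r0 T 2 R (QF G χ ch ζ R φ) ≤ (1 + R ^ (-(1 / 4) : ℝ)) * nn G F φ := by
    intro φ hφ
    rw [AQAX_nP G r0 2 R T (hQ φ hφ).1.meas]
    refine ENNReal.toReal_le_of_le_ofReal (mul_nonneg hε.le (hnn φ)) ?_
    refine le_trans ?_ (hV φ hφ).1
    exact lintegral_mono_set inter_subset_left
  refine ⟨hA, ?_⟩
  intro v hv
  have e1 := hS v hv
  have e2 := hA _ e1
  have e3 := hdual _ v e1 hv
  have e4 : ∫ z in F, Qs G r0 χ ch ζ R v z * conj (Qs G r0 χ ch ζ R v z) ∂mv G = ((nn G F (Qs G r0 χ ch ζ R v) : ℝ) : ℂ) := by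
    rw [nn, ← integral_complex_ofReal]
    congr 1
    funext z
    rw [Complex.mul_conj, Complex.normSq_eq_norm_sq]
  rw [e4] at e3
  have e5 := AQAX_amgm ((mY Γ d).restrict (DT d T ∩ GW Γ G r0 2 R)) (QF G χ ch ζ R (Qs G r0 χ ch ζ R v)) v (1 + R ^ (-(1 / 4) : ℝ)) hε
    (AQAX_fp h4 hK hG hD r0 R (hQ _ e1).1) (AQAX_fp h4 hK hG hD r0 R hv)
  rw [e3, Complex.norm_real, Real.norm_of_nonneg (hnn _)] at e5
  have e6 : (∫ y in DT d T ∩ GW Γ G r0 2 R, ‖QF G χ ch ζ R (Qs G r0 χ ch ζ R v) y‖ ^ 2 ∂mY Γ d) / (1 + R ^ (-(1 / 4) : ℝ)) ≤ nn G F (Qs G r0 χ ch ζ R v) := by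
    rw [div_le_iff₀ hε, mul_comm]
    exact e2
  have e7 : nP G r0 T 2 R v = ∫ y in DT d T ∩ GW Γ G r0 2 R, ‖v y‖ ^ 2 ∂mY Γ d := rfl
  rw [e7]
  linarith

end

end Pool.Agent.VD
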