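import Pool.Agent.helper55.VD.SpecE3

/-!
# Project VD (MP_07c750_an), block E, row EEY (the phases)
-/

set_option autoImplicit false

open scoped ContDiff Topology InnerProductSpace ComplexConjugate ENNReal
open MeasureTheory Filter Set

namespace Pool.Agent.VD

open Pool.Agent.VQ (CH KZ PS perZ cmZ)
open Pool.Agent.RPQ (IsOp)

noncomputable section

theorem EEY_num (b : ℝ) (hb : 0 ≤ b) : ∃ R0 : ℝ, ∀ R : ℝ, R0 ≤ R →
    R / 2 * (b * (R ^ (1 / 100 : ℝ) / R) * R ^ (-(1 / 3) : ℝ) * (Real.log R + 1)) ≤ R ^ (-(1 / 4) : ℝ) := by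
  have hc : 0 < 1 / (b + 1) := by positivity
  have h := (isLittleO_log_rpow_atTop (by norm_num : (0 : ℝ) < 1 / 20)).bound hc
  have h' := (tendsto_rpow_atTop (by norm_num : (0 : ℝ) < 1 / 20)).eventually_ge_atTop (b + 1)
  obtain ⟨R0, hR0⟩ := Filter.eventually_atTop.1 (h.and h')
  refine ⟨max R0 1, fun R hR => ?_⟩
  have h1 : 1 ≤ R := (le_max_right _ _).trans hR
  have h0 : 0 < R := by linarith
  obtain ⟨h2, h3⟩ := hR0 R ((le_max_left _ _).trans hR)
  rw [Real.norm_of_nonneg (Real.log_nonneg h1), Real.norm_of_nonneg (Real.rpow_nonneg h0.le _)] at h2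
  have h4 : (1 : ℝ) ≤ 1 / (b + 1) * R ^ (1 / 20 : ℝ) := by
    rw [one_div, inv_mul_eq_div, le_div_iff₀ (by positivity), one_mul]
    exact h3
  have h5 : b / 2 * (Real.log R + 1) ≤ R ^ (1 / 20 : ℝ) := by
    have h6 : b / 2 * (Real.log R + 1) ≤ b / 2 * (2 * (1 / (b + 1) * R ^ (1 / 20 : ℝ))) := by
      apply mul_le_mul_of_nonneg_left _ (by positivity)
      linarith
    refine h6.trans ?_
    have h7 : b / 2 * (2 * (1 / (b + 1) * R ^ (1 / 20 : ℝ))) = b / (b + 1) * R ^ (1 / 20 : ℝ) := by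
      field_simp
    rw [h7]
    have h8 : b / (b + 1) ≤ 1 := by rw [div_le_one (by positivity)]; linarith
    calc b / (b + 1) * R ^ (1 / 20 : ℝ) ≤ 1 * R ^ (1 / 20 : ℝ) := mul_le_mul_of_nonneg_right h8 (Real.rpow_nonneg h0.le _)
      _ = _ := one_mul _
  have e1 : R / 2 * (b * (R ^ (1 / 100 : ℝ) / R) * R ^ (-(1 / 3) : ℝ) * (Real.log R + 1)) =
      (R ^ (1 / 100 : ℝ) * R ^ (-(1 / 3) : ℝ)) * (b / 2 * (Real.log R + 1)) := by
    field_simp
  rw [e1, ← Real.rpow_add h0]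
  refine (mul_le_mul_of_nonneg_left h5 (Real.rpow_nonneg h0.le _)).trans ?_
  rw [← Real.rpow_add h0]
  exact Real.rpow_le_rpow_of_exponent_le h1 (by norm_num)

theorem EEY_cont {d : ℕ} {G : V d → V d →L[ℝ] V d} {Φ : ℝ → P d → P d} (hΦ : IsFlow G Φ) {f : V d → ℝ} (hf : Continuous f) :
    Continuous fun q : P d × ℝ => f (Φ q.2 q.1).1 := by
  have h1 : Continuous fun q : P d × ℝ => Φ q.2 q.1 := hΦ.smooth.continuous.comp (by fun_prop : Continuous fun q : P d × ℝ => ((q.2, q.1) : ℝ × P d))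
  exact hf.comp (continuous_fst.comp h1)

theorem EEY_cont1 {d : ℕ} {G : V d → V d →L[ℝ] V d} {Φ : ℝ → P d → P d} (hΦ : IsFlow G Φ) {f : V d → ℝ} (hf : Continuous f) (p : P d) :
    Continuous fun s : ℝ => f (Φ s p).1 :=
  (EEY_cont hΦ hf).comp (by fun_prop : Continuous fun s : ℝ => ((p, s) : P d × ℝ))

theorem EEY_add {d : ℕ} {G : V d → V d →L[ℝ] V d} {Φ : ℝ → P d → P d} (hΦ : IsFlow G Φ) {f : V d → ℝ} (hf : Continuous f) (R s t : ℝ) (p : P d) :
    thP Φ f R (s + t) p = thP Φ f R s p + thP Φ f R t (Φ s p) := by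
  have hc := EEY_cont1 hΦ hf p
  unfold thP
  have h1 : ∫ u in (0 : ℝ)..t, f (Φ u (Φ s p)).1 = ∫ u in s..(s + t), f (Φ u p).1 := by
    have h2 := intervalIntegral.integral_comp_add_right (a := 0) (b := t) (fun u => f (Φ u p).1) s
    rw [zero_add, add_comm t s] at h2
    rw [← h2]
    refine intervalIntegral.integral_congr fun u _ => ?_
    show f (Φ u (Φ s p)).1 = f (Φ (u + s) p).1
    rw [hΦ.add]
  rw [h1, ← mul_add]
  congr 1
  exact (intervalIntegral.integral_add_adjacent_intervals (hc.intervalIntegrable _ _) (hc.intervalIntegrable _ _)).symm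

theorem EEY_proof (hEEH : EEH_stmt) : EEY_stmt := by
  intro d Γ _ _ K k B r0 hK
  obtain ⟨C, hC, hE⟩ := hEEH d Γ K k B r0 hK
  refine ⟨C, hC, fun A hA => ?_⟩
  obtain ⟨R1, hR1, hE⟩ := hE A hA
  obtain ⟨R2, hR2⟩ := EEY_num |B ⌈C⌉₊ 1| (abs_nonneg _)
  refine ⟨max R1 R2, hR1.trans (le_max_left _ _), ?_⟩
  intro R G Φ f hR hok hf
  have hRR1 : R1 ≤ R := (le_max_left _ _).trans hR
  have hRR2 : R2 ≤ R := (le_max_right _ _).trans hR
  have hR4 : 1 ≤ R := hR1.trans hRR1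
  have hR0 : 0 < R := by linarith
  have hfc : Continuous f := hf.smooth.continuous
  have hadd := fun (s t : ℝ) (p : P d) => EEY_add hok.flow hfc R s t p
  refine ⟨hadd, ?_, ?_⟩
  · intro t
    have h1 : Continuous fun p : P d => thP Φ f R t p := by
      unfold thP
      exact continuous_const.mul (intervalIntegral.continuous_parametric_intervalIntegral_of_continuous' (f := fun (p : P d) (s : ℝ) => f (Φ s p).1) (EEY_cont hok.flow hfc) 0 t)
    exact h1.measurable.comp (@measurable_snd Γ (P d) ⊤ inferInstance)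
  · intro t y y' hst ht htu
    have hcp := EEY_cont1 hok.flow hfc (Φ 1 y.2)
    have hcq := EEY_cont1 hok.flow hfc y'.2
    have e0 : thP Φ f R (t + 1) y.2 - thP Φ f R 1 y.2 - thP Φ f R t y'.2 = thP Φ f R t (Φ 1 y.2) - thP Φ f R t y'.2 := by
      rw [add_comm t 1, hadd]
      ring
    rw [e0]
    unfold thP
    rw [← mul_sub, ← intervalIntegral.integral_sub (hcp.intervalIntegrable _ _) (hcq.intervalIntegrable _ _), abs_mul,
      abs_of_pos (by positivity : 0 < R / 2)]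
    have hκ : 0 ≤ R ^ (1 / 100 : ℝ) / R := by positivity
    have hder : ∀ x : V d, ‖x‖ ≤ C → ‖fderiv ℝ f x‖ ≤ |B ⌈C⌉₊ 1| * (R ^ (1 / 100 : ℝ) / R) := by
      intro x hx
      have h1 := hf.der ⌈C⌉₊ 1 x (hx.trans (Nat.le_ceil C))
      rw [norm_iteratedFDeriv_one] at h1
      exact h1.trans (mul_le_mul_of_nonneg_right (le_abs_self _) hκ)
    have h1 : ‖∫ u in (0 : ℝ)..t, (f (Φ u (Φ 1 y.2)).1 - f (Φ u y'.2).1)‖ ≤ |B ⌈C⌉₊ 1| * (R ^ (1 / 100 : ℝ) / R) * R ^ (-(1 / 3) : ℝ) * |t - 0| := by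
      refine intervalIntegral.norm_integral_le_of_norm_le_const fun u hu => ?_
      rw [uIoc_of_le ht] at hu
      rw [Real.norm_eq_abs, ← hok.flow.add]
      exact hE R u _ G Φ f y y' hRR1 hok hf.inv (hf.smooth.of_le (by simp)) (by positivity) hder hst hu.1.le (hu.2.trans htu)
    rw [Real.norm_eq_abs, sub_zero, abs_of_nonneg ht] at h1
    have h2 : t ≤ Real.log R + 1 := by
      refine htu.trans ?_
      have h4 : 0 ≤ Real.log R := Real.log_nonneg hR4
      have he : A.e2 ≤ 1 := by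
        have := hA.e2
        have := hA.e2'
        nlinarith
      have h5 : (A.n R : ℝ) ≤ A.e2 * Real.log R := Nat.floor_le (mul_nonneg hA.e2.le h4)
      unfold Par.tu
      nlinarith
    have h3 : R / 2 * (|B ⌈C⌉₊ 1| * (R ^ (1 / 100 : ℝ) / R) * R ^ (-(1 / 3) : ℝ) * t) ≤
        R / 2 * (|B ⌈C⌉₊ 1| * (R ^ (1 / 100 : ℝ) / R) * R ^ (-(1 / 3) : ℝ) * (Real.log R + 1)) :=
      mul_le_mul_of_nonneg_left (mul_le_mul_of_nonneg_left h2 (by positivity)) (by positivity)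
    exact (mul_le_mul_of_nonneg_left h1 (by positivity)).trans (h3.trans (hR2 R hRR2))

end

end Pool.Agent.VD
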