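import Pool.Agent.helper80.VD.SpecF

/-!
# Project VD (MP_07c750_an), block F, row GGC (geodesic completeness)
-/

set_option autoImplicit false

open scoped ContDiff Topology InnerProductSpace
open MeasureTheory Filter Set

namespace Pool.Agent.VD

noncomputable section

theorem GGC_proof (hGXH : GXH_stmt) (hGLF : GLF_stmt) (hGHL : GHL_stmt) (hGSC : GSC_stmt) (hFUL : FUL_stmt) (hFGE : FGE_stmt) : GGC_stmt := by
  intro d Γ _ _ K G hK hG hiso p
  obtain ⟨hHs, hXs, _, _, _, _, hHX⟩ := hGXH d G hG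
  obtain ⟨hl1, hlm, hls, _⟩ := hGLF d Γ hK.smooth
  obtain ⟨hhl, hhX⟩ := hGHL d Γ G hG hK.smooth hiso
  have hL := hGSC d G hG K (Ham G p) hK.compact
  obtain ⟨τ, hτ, hloc⟩ := hFUL (P d) (XH G) hXs _ hL
  obtain ⟨c, hc0, hc⟩ := hFGE (P d) (XH G) {q | Ham G q = Ham G p} τ hτ (by
    intro q hq
    have hq' : Ham G q = Ham G p := hq
    obtain ⟨γ, hγ⟩ := hK.cover q.1
    obtain ⟨c', hc'0, hc'⟩ := hloc (lft γ q) ⟨hγ, by rw [(hhl γ q).1, hq']⟩
    have hder : ∀ t, |t| < τ → HasDerivAt (fun s => lft γ⁻¹ (c' s)) (XH G (lft γ⁻¹ (c' t))) t := by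
      intro t ht
      have h1 : HasFDerivAt (lft γ⁻¹ : P d → P d) (fderiv ℝ (lft γ⁻¹ : P d → P d) (c' t)) (c' t) :=
        (((hls γ⁻¹).differentiable (by simp)) (c' t)).hasFDerivAt
      have h2 := h1.comp_hasDerivAt t (hc' t ht)
      rw [hhX γ⁻¹ (c' t)] at h2
      exact h2
    have h0 : lft γ⁻¹ (c' 0) = q := by
      rw [hc'0, ← hlm, inv_mul_cancel, hl1]
    refine ⟨fun s => lft γ⁻¹ (c' s), h0, fun t ht => ⟨hder t ht, ?_⟩⟩
    show Ham G (lft γ⁻¹ (c' t)) = Ham G p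
    have h3 : ∀ s ∈ Ioo (-τ) τ, HasDerivWithinAt (fun s => Ham G (lft γ⁻¹ (c' s))) ((fun _ => (0 : ℝ)) s) (Ioo (-τ) τ) s := by
      intro s hs
      have hs' : |s| < τ := abs_lt.2 hs
      have h4 : HasFDerivAt (Ham G) (fderiv ℝ (Ham G) (lft γ⁻¹ (c' s))) (lft γ⁻¹ (c' s)) :=
        ((hHs.differentiable (by simp)) _).hasFDerivAt
      have h5 := h4.comp_hasDerivAt s (hder s hs')
      rw [hHX] at h5
      exact h5.hasDerivWithinAt
    have h6 := Convex.norm_image_sub_le_of_norm_hasDerivWithin_le (C := 0) h3 (fun s _ => by simp) (convex_Ioo _ _)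
      (show (0 : ℝ) ∈ Ioo (-τ) τ from ⟨by linarith, hτ⟩) (show t ∈ Ioo (-τ) τ from abs_lt.1 ht)
    rw [zero_mul, norm_le_zero_iff, sub_eq_zero] at h6
    rw [h6, h0, hq']) p rfl
  exact ⟨c, hc0, fun t => (hc t).1⟩

end

end Pool.Agent.VD
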