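import Pool.Agent.helper99.VD.SpecV

/-!
# Project VD (MP_07c750_an), block U part 2, row ITA (integrals)
-/

set_option autoImplicit false

open scoped ContDiff Topology InnerProductSpace ENNReal
open MeasureTheory Filter Set

namespace Pool.Agent.VD

noncomputable section

theorem ITA_proof : ITA_stmt := by
  refine ⟨?_, ?_, ?_⟩
  · intro g t ht hg
    exact intervalIntegral.integral_nonneg ht (fun s _ => hg s)
  · intro g t a l ha hl hal hc hg h1
    have h2 : ∫ s in a..(a + l), g s ≤ ∫ s in (0 : ℝ)..t, g s :=
      intervalIntegral.integral_mono_interval ha (by linarith) hal (Eventually.of_forall hg) (hc.intervalIntegrable _ _)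
    have h3 : ∫ s in a..(a + l), (1 : ℝ) ≤ ∫ s in a..(a + l), g s :=
      intervalIntegral.integral_mono_on (by linarith) (continuous_const.intervalIntegrable _ _) (hc.intervalIntegrable _ _)
        (fun s hs => h1 s hs.1 hs.2)
    have h4 : ∫ s in a..(a + l), (1 : ℝ) = l := by
      rw [intervalIntegral.integral_const, smul_eq_mul, mul_one]
      ring
    linarith
  · intro g t ht hne
    by_contra hcon
    push Not at hcon
    apply hne
    rw [intervalIntegral.integral_of_le ht, integral_Ioc_eq_integral_Ioo]
    rw [setIntegral_congr_fun (g := fun _ => (0 : ℝ)) measurableSet_Ioo (fun s hs => hcon s hs.1.le hs.2)]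
    simp

end

end Pool.Agent.VD
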