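import Pool.Agent.helper11.VD.SpecR

/-!
# Project VD (MP_07c750_an), block C, row LEN (proper length functions)
-/

set_option autoImplicit false

open scoped ContDiff Topology InnerProductSpace ENNReal
open MeasureTheory Filter Set

namespace Pool.Agent.VD

noncomputable section

/-- the total weight of a list -/
def LEN_W {Γ : Type} (w : Γ → ℕ) (s : List Γ) : ℕ := (s.map w).sum

/-- the weights of the lists with the product `γ` -/
def LEN_S {Γ : Type} [Group Γ] (w : Γ → ℕ) (γ : Γ) : Set ℕ := {n | ∃ s : List Γ, s.prod = γ ∧ LEN_W w s = n}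

theorem LEN_ne {Γ : Type} [Group Γ] (w : Γ → ℕ) (γ : Γ) : (LEN_S w γ).Nonempty := ⟨_, [γ], by simp, rfl⟩

theorem LEN_min {Γ : Type} [Group Γ] (w : Γ → ℕ) (γ : Γ) : ∃ s : List Γ, s.prod = γ ∧ LEN_W w s = sInf (LEN_S w γ) :=
  Nat.sInf_mem (LEN_ne w γ)

theorem LEN_le {Γ : Type} [Group Γ] (w : Γ → ℕ) (γ : Γ) (s : List Γ) (h : s.prod = γ) : sInf (LEN_S w γ) ≤ LEN_W w s :=
  Nat.sInf_le ⟨s, h, rfl⟩

theorem LEN_inv {Γ : Type} [Group Γ] (w : Γ → ℕ) (hw : ∀ γ, w γ⁻¹ = w γ) (γ : Γ) : sInf (LEN_S w γ⁻¹) ≤ sInf (LEN_S w γ) := by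
  obtain ⟨s, hs, h⟩ := LEN_min w γ
  rw [← h]
  have h1 : LEN_W w (s.map fun x => x⁻¹).reverse = LEN_W w s := by
    unfold LEN_W
    rw [List.map_reverse, List.sum_reverse, List.map_map]
    congr 1
    exact List.map_congr_left fun x _ => hw x
  rw [← h1]
  refine LEN_le w _ _ ?_
  rw [← List.prod_inv_reverse, hs]

theorem LEN_fin {Γ : Type} [Group Γ] (w : Γ → ℕ) (hw1 : ∀ γ, 1 ≤ w γ) (hw : ∀ n, {γ | w γ ≤ n}.Finite) (n : ℕ) :
    {γ : Γ | ∃ s : List Γ, s.prod = γ ∧ LEN_W w s ≤ n}.Finite := by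
  induction n with
  | zero =>
    refine (Set.finite_singleton (1 : Γ)).subset ?_
    rintro γ ⟨s, hs, h⟩
    cases s with
    | nil => exact hs.symm
    | cons x s =>
      exfalso
      unfold LEN_W at h
      rw [List.map_cons, List.sum_cons] at h
      have := hw1 x
      omega
  | succ n ih =>
    refine ((Set.finite_singleton (1 : Γ)).union (Set.Finite.image2 (fun x y => x * y) (hw (n + 1)) ih)).subset ?_
    rintro γ ⟨s, hs, h⟩
    cases s with
    | nil => exact Or.inl hs.symm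
    | cons x s =>
      unfold LEN_W at h
      rw [List.map_cons, List.sum_cons] at h
      have := hw1 x
      refine Or.inr ⟨x, ?_, s.prod, ⟨s, rfl, ?_⟩, ?_⟩
      · show w x ≤ n + 1
        omega
      · show (s.map w).sum ≤ n
        omega
      · rw [← hs, List.prod_cons]

theorem LEN_proof : LEN_stmt := by
  intro Γ _ hΓ
  obtain ⟨e, he⟩ := exists_injective_nat Γ
  let w : Γ → ℕ := fun γ => 1 + min (e γ) (e γ⁻¹)
  have hw1 : ∀ γ, 1 ≤ w γ := fun γ => Nat.le_add_right 1 _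
  have hwi : ∀ γ, w γ⁻¹ = w γ := by
    intro γ
    show 1 + min (e γ⁻¹) (e γ⁻¹⁻¹) = 1 + min (e γ) (e γ⁻¹)
    rw [inv_inv, min_comm]
  have hwf : ∀ n, {γ | w γ ≤ n}.Finite := by
    intro n
    have h1 : (e ⁻¹' Set.Iic n).Finite := (Set.finite_Iic n).preimage he.injOn
    have h2 : ((fun γ => e γ⁻¹) ⁻¹' Set.Iic n).Finite := (Set.finite_Iic n).preimage (fun a _ b _ h => inv_injective (he h))
    refine (h1.union h2).subset ?_
    intro γ hγ
    have h3 : 1 + min (e γ) (e γ⁻¹) ≤ n := hγ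
    rcases le_total (e γ) (e γ⁻¹) with h | h
    · left
      rw [min_eq_left h] at h3
      show e γ ≤ n
      omega
    · right
      rw [min_eq_right h] at h3
      show e γ⁻¹ ≤ n
      omega
  refine ⟨fun γ => sInf (LEN_S w γ), ?_, ?_, ?_, ?_⟩
  · have h := LEN_le w (1 : Γ) [] rfl
    exact Nat.le_zero.1 h
  · intro γ
    refine le_antisymm (LEN_inv w hwi γ) ?_
    have h := LEN_inv w hwi γ⁻¹
    rwa [inv_inv] at h
  · intro γ γ'
    obtain ⟨s, hs, h⟩ := LEN_min w γ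
    obtain ⟨s', hs', h'⟩ := LEN_min w γ'
    show sInf (LEN_S w (γ * γ')) ≤ sInf (LEN_S w γ) + sInf (LEN_S w γ')
    rw [← h, ← h']
    have h1 := LEN_le w (γ * γ') (s ++ s') (by rw [List.prod_append, hs, hs'])
    have h2 : LEN_W w (s ++ s') = LEN_W w s + LEN_W w s' := by
      unfold LEN_W
      rw [List.map_append, List.sum_append]
    omega
  · intro n
    refine (LEN_fin w hw1 hwf n).subset ?_
    intro γ hγ
    obtain ⟨s, hs, h⟩ := LEN_min w γ
    exact ⟨s, hs, by rw [h]; exact hγ⟩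

end

end Pool.Agent.VD
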